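import Pool.Agent.Helper68.QS.St1

/-! # Project QD: straightening and transfer, module TRF -/

open MeasureTheory Set Filter Topology Complex
open scoped ContDiff ComplexConjugate ENNReal

namespace Pool.Agent.Helper28.QS

open Pool.Agent.Helper68.QS Pool.Agent.Helper68.QC
open Pool.Agent.Helper61.QE (D Dx rf SU Fu FD Ab sy nuT muT syX syY Kap En Et)

theorem pTRF (hSUB : Pool.Agent.Helper61.QE.StSUB) (hEDD : Pool.Agent.Helper61.QE.StEDD)
    (hCOE : Pool.Agent.Helper61.QE.StCOE) (hHVM : Pool.Agent.Helper68.QS.StHVM)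
    (hCPO : Pool.Agent.Helper68.QS.StCPO) (hINK : Pool.Agent.Helper68.QS.StINK)
    (hMPB : Pool.Agent.Helper68.QS.StMPB) (hENM : Pool.Agent.Helper68.QS.StENM)
    (hFDH : Pool.Agent.Helper68.QS.StFDH) : Pool.Agent.Helper68.QS.StTRF := by
  intro hEFD Γ _ s φ h H H' κ a b v F k hFu hF hAb hAff hHs hk0 hk1 hKap
  have hab : ‖b‖ < ‖a‖ := hAff.lt
  have ha0 : 0 < ‖a‖ := lt_of_le_of_lt (norm_nonneg b) hab
  have ht1 : ‖conj (b / a)‖ < 1 := by
    rw [RCLike.norm_conj, norm_div, div_lt_one ha0]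
    exact hab
  have ha : a ≠ 0 := norm_pos_iff.1 ha0
  have hu : ‖conj a / a‖ = 1 := by
    rw [norm_div, RCLike.norm_conj, div_self ha0.ne']
  have hex : ∃ x ∈ D, deriv h x ≠ 0 := hAb.ne
  obtain ⟨M, hMsu, hMV⟩ := hHVM h H H' a b v hAb.hol hex hAff
  obtain ⟨δ, hδ1, κ', bel', out', comp⟩ := hCPO h H H' κ a b v M k hAb.hol hex hAff hMsu hMV hk1
    hKap.bel hKap.out
  have c1 := hCOE Γ s h κ k hFu.su ⟨hAb.hol, hAb.eqv⟩ hk0 hKap
  have inv' : ∀ γ, InvB (M * s (φ γ) * M⁻¹) κ' := by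
    intro γ
    refine hINK h H H' κ κ' a b v M (s γ) (s (φ γ)) k δ hAb.hol hAff hMsu (hFu.su γ)
      (hFu.su (φ γ)) hMV (hHs γ) hk1 hδ1 hKap.bel hKap.out ((c1.1 _).2 γ) bel' out' ?_
    intro z
    have e := comp 0 (Metric.mem_ball_self one_pos) z
    rw [zero_mul] at e
    exact e
  obtain ⟨κ'', bel'', out'', int'', tr⟩ := hMPB h κ' M δ hAb.hol hMsu hδ1 bel' out'
  have inv'' : ∀ γ, InvB (s γ) κ'' := by
    intro γ
    have e := tr (s (φ (φ.symm γ))) (hFu.su _) (inv' (φ.symm γ))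
    rwa [MulEquiv.apply_symm_apply] at e
  have hδ0 : 0 ≤ δ := (norm_nonneg _).trans (bel''.le 0)
  have hK : Kap s δ κ'' := ⟨bel'', out'', inv''⟩
  have c2 := hCOE Γ s h κ'' δ hFu.su ⟨hAb.hol, hAb.eqv⟩ hδ0 hK
  obtain ⟨bV, -, symV, -, -⟩ := c1.2.1 (conj (b / a))
  obtain ⟨-, hVx, -, -, -, -, -⟩ := hEDD _ ht1 _ bV symV
  have hFH : FD s (H '' F) := hFDH Γ s φ H H' F hFu.su hAff.m hAff.m' hAff.cont hAff.cont'
    hAff.l hAff.r hHs hF
  have subD : ∀ G : Set ℂ, FD s G → G ⊆ D := by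
    intro G hG z hz
    obtain ⟨r, hr, hG'⟩ := hG.cpt
    exact mem_ball_zero_iff.2 (lt_of_le_of_lt (hG' z hz) hr)
  refine ⟨δ, hδ1, κ'', hδ0, hK, fun ζ hζ => ?_⟩
  have hζu : ζ * (conj a / a) ∈ D := by
    rw [mem_ball_zero_iff, norm_mul, hu, mul_one]
    exact mem_ball_zero_iff.1 hζ
  obtain ⟨B, hB⟩ := int'' _ hζu
  have e1 : nq (muT κ h (mbp (conj (b / a)) ζ)) '' F =
      nq (muT κ' (hM M h) (ζ * (conj a / a))) '' (mob M '' (H '' F)) := by
    rw [image_image, image_image]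
    apply image_congr
    intro z hz
    rw [comp ζ hζ z, hMV z (subD F hF hz)]
  have e2 : nq (muT κ h (mbp (conj (b / a)) ζ)) '' Dx =
      nq (muT κ' (hM M h) (ζ * (conj a / a))) '' Dx := by
    conv_rhs => rw [← hVx]
    rw [image_image]
    apply image_congr
    intro z _
    rw [comp ζ hζ z]
  have e3 : En F (muT κ h (mbp (conj (b / a)) ζ)) = En (H '' F) (muT κ'' h (ζ * (conj a / a))) := by
    unfold En
    rw [e1, e2]
    exact hENM M B _ _ (H '' F) hMsu hB hFH.meas (subD _ hFH)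
  rw [e3]
  have hm : max δ ‖ζ * (conj a / a)‖ < 1 := max_lt hδ1 (mem_ball_zero_iff.1 hζu)
  exact hEFD Γ s (H '' F) F _ _ hFu hFH hF hm (c2.1 _).1 (c2.1 _).2

end Pool.Agent.Helper28.QS
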